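import Mathlib

set_option autoImplicit false

/-!
Weak solutions of `u' - (A u_x)_x = f` on `(0, T) × (0, π)` with Dirichlet boundary conditions.
-/

namespace Pool.Agent.H231Z.MR

open MeasureTheory Set Real
open scoped ComplexConjugate

/-- `v` lies in `V = H¹₀(0, π)` and has weak derivative `g` -/
def IsV (v g : ℝ → ℂ) : Prop :=
  MemLp g 2 (volume.restrict (Ioo 0 π)) ∧ (∀ x ∈ Icc 0 π, v x = ∫ y in (0 : ℝ)..x, g y) ∧ v π = 0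

/-- the inner product of `H = L²(0, π)` -/
noncomputable def ip (v φ : ℝ → ℂ) : ℂ := ∫ x in Ioo 0 π, v x * conj (φ x)

/-- `u` lies in `L²(0, T; H) = L²((0, T) × (0, π))` -/
def InL2 (T : ℝ) (u : ℝ → ℝ → ℂ) : Prop :=
  MemLp (fun p : ℝ × ℝ => u p.1 p.2) 2 (volume.restrict (Ioo 0 T ×ˢ Ioo 0 π))

/-- `u` lies in `L²(0, T; V)`, with space derivative `D`, and `u(t) = ∫₀ᵗ (f - 𝔄 u)` in `V*`, where
`⟨𝔄(s) v, φ⟩ = ∫ A(s, x) v'(x) conj(φ'(x)) dx` -/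
def IsSol (T : ℝ) (A f u D : ℝ → ℝ → ℂ) : Prop :=
  InL2 T u ∧ InL2 T D ∧ (∀ t ∈ Icc 0 T, IsV (u t) (D t)) ∧
    ∀ φ ψ : ℝ → ℂ, IsV φ ψ → ∀ t ∈ Icc 0 T,
      ip (u t) φ = ∫ s in (0 : ℝ)..t, (ip (f s) φ - ip (fun x => A s x * D s x) ψ)

/-- `u(t) = u₀ + ∫₀ᵗ g` with `u₀ ∈ H` and `g ∈ L²(0, T; H)`, tested against the elements of `V` -/
def InH1 (T : ℝ) (u : ℝ → ℝ → ℂ) : Prop :=
  ∃ (u₀ : ℝ → ℂ) (g : ℝ → ℝ → ℂ), MemLp u₀ 2 (volume.restrict (Ioo 0 π)) ∧ InL2 T g ∧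
    ∀ φ ψ : ℝ → ℂ, IsV φ ψ → ∀ᵐ t ∂(volume.restrict (Ioo 0 T)),
      ip (u t) φ = ip u₀ φ + ∫ s in (0 : ℝ)..t, ip (g s) φ

end Pool.Agent.H231Z.MR
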