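import Mathlib

set_option autoImplicit false

/-!
Lacunary series with parabolic scaling.
-/

namespace Pool.Agent.H231Z.MR

open MeasureTheory Set Real Filter Topology

noncomputable def ser (r : ℝ) (α β : ℝ → ℝ) (t x : ℝ) : ℝ :=
  ∑' j : ℕ, r ^ j * (α (2 ^ j * x) * β (4 ^ j * t))

variable {r : ℝ} {α β α' β' : ℝ → ℝ}

theorem term_le (hr : 0 ≤ r) (hα : ∀ y, |α y| ≤ 1) (hβ : ∀ y, |β y| ≤ 1) (j : ℕ) (a b : ℝ) :
    ‖r ^ j * (α a * β b)‖ ≤ r ^ j := by
  rw [norm_mul, norm_mul, norm_pow, Real.norm_of_nonneg hr]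
  exact mul_le_of_le_one_right (by positivity) (mul_le_one₀ (hα a) (abs_nonneg _) (hβ b))

theorem ser_summable (hr : 0 ≤ r) (hr1 : r < 1) (hα : ∀ y, |α y| ≤ 1) (hβ : ∀ y, |β y| ≤ 1)
    (t x : ℝ) : Summable fun j : ℕ => r ^ j * (α (2 ^ j * x) * β (4 ^ j * t)) :=
  Summable.of_norm_bounded (summable_geometric_of_lt_one hr hr1) fun j => term_le hr hα hβ j _ _

theorem ser_cont (hr : 0 ≤ r) (hr1 : r < 1) (hα : ∀ y, |α y| ≤ 1) (hβ : ∀ y, |β y| ≤ 1)
    (cα : Continuous α) (cβ : Continuous β) : Continuous fun p : ℝ × ℝ => ser r α β p.1 p.2 :=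
  continuous_tsum (fun j => by fun_prop) (summable_geometric_of_lt_one hr hr1)
    fun j _ => term_le hr hα hβ j _ _

theorem ser_le (hα : ∀ y, |α y| ≤ 1) (hβ : ∀ y, |β y| ≤ 1) (t x : ℝ) :
    |ser (1 / 2) α β t x| ≤ 2 := by
  have := tsum_of_norm_bounded hasSum_geometric_two
    fun j => term_le (r := 1 / 2) (by norm_num) hα hβ j (2 ^ j * x) (4 ^ j * t)
  exact this

theorem ser_dx (hr : 0 ≤ r) (hr1 : 2 * r < 1) (hα : ∀ y, |α y| ≤ 1) (hβ : ∀ y, |β y| ≤ 1)
    (hα' : ∀ y, |α' y| ≤ 1) (hd : ∀ y, HasDerivAt α (α' y) y) (t x : ℝ) :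
    HasDerivAt (fun x => ser r α β t x) (ser (2 * r) α' β t x) x := by
  refine hasDerivAt_tsum (summable_geometric_of_lt_one (by positivity) hr1)
    (g := fun j x => r ^ j * (α (2 ^ j * x) * β (4 ^ j * t))) (fun j y => ?_)
    (fun j y => term_le (by positivity) hα' hβ j _ _) (ser_summable hr (by linarith) hα hβ t 0) x
  have := ((((hd (2 ^ j * y)).comp y ((hasDerivAt_id y).const_mul (2 ^ j))).mul_const
    (β (4 ^ j * t))).const_mul (r ^ j))
  exact this.congr_deriv (by rw [mul_pow]; ring)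

theorem ser_dt (hr : 0 ≤ r) (hr1 : 4 * r < 1) (hα : ∀ y, |α y| ≤ 1) (hβ : ∀ y, |β y| ≤ 1)
    (hβ' : ∀ y, |β' y| ≤ 1) (hd : ∀ y, HasDerivAt β (β' y) y) (t x : ℝ) :
    HasDerivAt (fun t => ser r α β t x) (ser (4 * r) α β' t x) t := by
  refine hasDerivAt_tsum (summable_geometric_of_lt_one (by positivity) hr1)
    (g := fun j t => r ^ j * (α (2 ^ j * x) * β (4 ^ j * t))) (fun j y => ?_)
    (fun j y => term_le (by positivity) hα hβ' j _ _) (ser_summable hr (by linarith) hα hβ 0 x) t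
  have := ((((hd (4 ^ j * y)).comp y ((hasDerivAt_id y).const_mul (4 ^ j))).const_mul
    (α (2 ^ j * x))).const_mul (r ^ j))
  exact this.congr_deriv (by rw [mul_pow]; ring)

theorem ser_holder (hα : ∀ y, |α y| ≤ 1) (hβ : ∀ y, |β y| ≤ 1)
    (hl : ∀ a b, |β a - β b| ≤ |a - b|) (t s x : ℝ) :
    |ser (1 / 2) α β t x - ser (1 / 2) α β s x| ≤ 10 * √|t - s| := by
  set δ := √|t - s| with hδ
  have hδ0 : 0 ≤ δ := Real.sqrt_nonneg _
  have hδ2 : δ ^ 2 = |t - s| := Real.sq_sqrt (abs_nonneg _)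
  let Φ : ℕ → ℝ := fun j => 10 * δ * (2 ^ j * δ / (1 + 2 ^ j * δ))
  have key : ∀ j : ℕ, |(1 / 2 : ℝ) ^ j * (α (2 ^ j * x) * β (4 ^ j * t)) -
      (1 / 2) ^ j * (α (2 ^ j * x) * β (4 ^ j * s))| ≤ Φ (j + 1) - Φ j := by
    intro j
    have hq : (0 : ℝ) < 2 ^ j := by positivity
    have h4 : (4 : ℝ) ^ j = (2 ^ j) ^ 2 := by rw [← pow_mul, mul_comm, pow_mul]; norm_num
    have h1 := hl (4 ^ j * t) (4 ^ j * s)
    rw [← mul_sub, abs_mul, abs_of_pos (by positivity : (0 : ℝ) < 4 ^ j), ← hδ2] at h1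
    have h2 : |β (4 ^ j * t) - β (4 ^ j * s)| ≤ 2 :=
      (abs_sub _ _).trans (by linarith [hβ (4 ^ j * t), hβ (4 ^ j * s)])
    rw [← mul_sub, ← mul_sub, abs_mul, abs_mul, abs_of_pos (by positivity : (0 : ℝ) < (1 / 2) ^ j)]
    have h3 := abs_nonneg (β (4 ^ j * t) - β (4 ^ j * s))
    generalize |β (4 ^ j * t) - β (4 ^ j * s)| = b at h1 h2 h3
    rw [h4, ← mul_pow] at h1
    have h5 : |α (2 ^ j * x)| * b ≤ b := mul_le_of_le_one_left h3 (hα _)
    have e : Φ (j + 1) - Φ j = (1 / 2) ^ j *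
        (10 * (2 ^ j * δ) ^ 2 / ((1 + 2 ^ j * δ) * (1 + 2 * (2 ^ j * δ)))) := by
      simp only [Φ, pow_succ, one_div, inv_pow]
      field_simp
      ring
    rw [e]
    refine mul_le_mul_of_nonneg_left (h5.trans ?_) (by positivity)
    have hρ : 0 ≤ 2 ^ j * δ := by positivity
    generalize 2 ^ j * δ = ρ at h1 hρ
    rw [le_div_iff₀ (by positivity)]
    rcases le_total ρ (3 / 2) with h | h
    · have : (1 + ρ) * (1 + 2 * ρ) ≤ 10 := by nlinarith
      nlinarith [mul_le_mul h1 this (by positivity) (by positivity)]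
    · have : (1 + ρ) * (1 + 2 * ρ) ≤ 5 * ρ ^ 2 := by nlinarith
      nlinarith [mul_le_mul h2 this (by positivity) (by positivity)]
  have s1 := ser_summable (r := 1 / 2) (by norm_num) (by norm_num) hα hβ t x
  have s2 := ser_summable (r := 1 / 2) (by norm_num) (by norm_num) hα hβ s x
  unfold ser
  rw [← s1.tsum_sub s2]
  refine (norm_tsum_le_tsum_norm (s1.sub s2).norm).trans
    ((s1.sub s2).norm.tsum_le_of_sum_range_le fun n => ?_)
  refine (Finset.sum_le_sum fun j _ => key j).trans ?_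
  rw [Finset.sum_range_sub]
  have h1 : 0 ≤ Φ 0 := by simp only [Φ]; positivity
  have h2 : Φ n ≤ 10 * δ := mul_le_of_le_one_right (by positivity)
    ((div_le_one (by positivity)).2 (by linarith))
  linarith

theorem int_cos (c : ℤ) (hc : c ≠ 0) : ∫ x in (0 : ℝ)..π, cos (c * x) = 0 := by
  rw [intervalIntegral.integral_comp_mul_left (fun x => cos x) (by exact_mod_cast hc), integral_cos]
  simp [Real.sin_int_mul_pi]

theorem int_sin_sin (j k : ℕ) : ∫ x in (0 : ℝ)..π, sin (2 ^ j * x) * sin (2 ^ k * x) =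
    if j = k then π / 2 else 0 := by
  have e : ∀ x : ℝ, sin (2 ^ j * x) * sin (2 ^ k * x) =
      (cos (((2 ^ j - 2 ^ k : ℤ) : ℝ) * x) - cos (((2 ^ j + 2 ^ k : ℤ) : ℝ) * x)) / 2 := by
    intro x
    push_cast
    rw [sub_mul, add_mul, cos_sub, cos_add]; ring
  simp only [e]
  rw [intervalIntegral.integral_div, intervalIntegral.integral_sub
    (Continuous.intervalIntegrable (by fun_prop) _ _)
    (Continuous.intervalIntegrable (by fun_prop) _ _), int_cos (2 ^ j + 2 ^ k) (by positivity)]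
  split_ifs with h
  · simp [h]
  · rw [int_cos (2 ^ j - 2 ^ k) (sub_ne_zero.2 fun h1 =>
      h (pow_right_injective₀ (a := (2 : ℤ)) (by norm_num) (by norm_num) h1))]
    simp

theorem ser_coeff (hr : 0 ≤ r) (hr1 : r < 1) (hβ : ∀ y, |β y| ≤ 1) (t : ℝ) (k : ℕ) :
    ∫ x in (0 : ℝ)..π, ser r sin β t x * sin (2 ^ k * x) = π / 2 * (r ^ k * β (4 ^ k * t)) := by
  have h := intervalIntegral.hasSum_integral_of_dominated_convergence (μ := volume) (a := 0)
    (b := π) (F := fun j x => r ^ j * (sin (2 ^ j * x) * β (4 ^ j * t)) * sin (2 ^ k * x))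
    (f := fun x => ser r sin β t x * sin (2 ^ k * x)) (fun j _ => r ^ j)
    (fun j => Continuous.aestronglyMeasurable (by fun_prop))
    (fun j => ae_of_all _ fun x _ => by
      rw [norm_mul]
      exact (mul_le_of_le_one_right (norm_nonneg _) (abs_sin_le_one _)).trans
        (term_le hr abs_sin_le_one hβ j _ _))
    (ae_of_all _ fun _ _ => summable_geometric_of_lt_one hr hr1)
    (by simp)
    (ae_of_all _ fun x _ => (ser_summable hr hr1 abs_sin_le_one hβ t x).hasSum.mul_right _)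
  have e : ∀ j : ℕ, ∫ x in (0 : ℝ)..π, r ^ j * (sin (2 ^ j * x) * β (4 ^ j * t)) * sin (2 ^ k * x) =
      if j = k then π / 2 * (r ^ k * β (4 ^ k * t)) else 0 := by
    intro j
    have : ∀ x : ℝ, r ^ j * (sin (2 ^ j * x) * β (4 ^ j * t)) * sin (2 ^ k * x) =
        (r ^ j * β (4 ^ j * t)) * (sin (2 ^ j * x) * sin (2 ^ k * x)) := fun x => by ring
    simp only [this]
    rw [intervalIntegral.integral_const_mul, int_sin_sin]
    split_ifs with h1
    · rw [h1, mul_comm]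
    · simp
  simp only [e] at h
  exact h.unique (hasSum_ite_eq k _)

end Pool.Agent.H231Z.MR
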