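import Mathlib

set_option autoImplicit false

/-!
Integration by parts against a primitive, exchange of integrals, Riemann-Lebesgue lemma.
-/

namespace Pool.Agent.H231Z.MR

open MeasureTheory Set Real Filter Topology
open scoped ComplexConjugate

theorem prod_int {a b : ℝ} (K : ℝ × ℝ → ℂ) (hK : Continuous K) {g : ℝ × ℝ → ℂ}
    (hg : Integrable g ((volume.restrict (Ioc 0 a)).prod (volume.restrict (Ioo 0 b)))) :
    Integrable (fun p => K p * g p)
      ((volume.restrict (Ioc 0 a)).prod (volume.restrict (Ioo 0 b))) := by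
  obtain ⟨C, hC⟩ := ((isCompact_Icc (a := (0 : ℝ)) (b := a)).prod
    (isCompact_Icc (a := (0 : ℝ)) (b := b))).exists_bound_of_continuousOn hK.continuousOn
  refine hg.bdd_mul (c := C) hK.aestronglyMeasurable ?_
  rw [Measure.prod_restrict]
  filter_upwards [ae_restrict_mem (measurableSet_Ioc.prod measurableSet_Ioo)] with p hp
  exact hC p ⟨Ioc_subset_Icc_self hp.1, Ioo_subset_Icc_self hp.2⟩

theorem swap {t b : ℝ} (ht : 0 ≤ t) (K : ℝ × ℝ → ℂ) (hK : Continuous K) {ψ : ℝ → ℂ}
    (hψ : Integrable ψ (volume.restrict (Ioo 0 b))) :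
    ∫ s in (0 : ℝ)..t, ∫ x in Ioo 0 b, K (s, x) * ψ x =
      ∫ x in Ioo 0 b, (∫ s in (0 : ℝ)..t, K (s, x)) * ψ x := by
  have h := intervalIntegral_integral_swap (a := 0) (b := t) (μ := volume.restrict (Ioo 0 b))
    (f := fun s x => K (s, x) * ψ x) (by
      rw [uIoc_of_le ht]
      exact prod_int K hK (hψ.comp_snd _))
  rw [h]
  simp only [intervalIntegral.integral_mul_const]

theorem ibp {L : ℝ} (hL : 0 ≤ L) {Φ Φ' ψ : ℝ → ℂ} (hd : ∀ x, HasDerivAt Φ (Φ' x) x)
    (hc : Continuous Φ') (hψ : Integrable ψ (volume.restrict (Ioo 0 L))) :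
    ∫ x in Ioo 0 L, Φ' x * ∫ y in (0 : ℝ)..x, ψ y =
      Φ L * (∫ y in (0 : ℝ)..L, ψ y) - ∫ y in Ioo 0 L, Φ y * ψ y := by
  have hΦ : Continuous Φ := continuous_iff_continuousAt.2 fun x => (hd x).continuousAt
  have h0 : Integrable (fun p : ℝ × ℝ => Φ' p.1 * ψ p.2)
      ((volume.restrict (Ioc 0 L)).prod (volume.restrict (Ioo 0 L))) :=
    prod_int (fun p => Φ' p.1) (by fun_prop) (hψ.comp_snd _)
  have h1 := integral_integral_swap (f := fun x y : ℝ =>
    ({p : ℝ × ℝ | p.2 < p.1}.indicator (fun p => Φ' p.1 * ψ p.2)) (x, y))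
    (h0.indicator (measurableSet_lt measurable_snd measurable_fst))
  have e1 : ∫ x in Ioo 0 L, Φ' x * ∫ y in (0 : ℝ)..x, ψ y = ∫ x in Ioc 0 L, ∫ y in Ioo 0 L,
      ({p : ℝ × ℝ | p.2 < p.1}.indicator (fun p => Φ' p.1 * ψ p.2)) (x, y) := by
    rw [integral_Ioc_eq_integral_Ioo]
    refine setIntegral_congr_fun measurableSet_Ioo fun x hx => ?_
    have : ∀ y, ({p : ℝ × ℝ | p.2 < p.1}.indicator (fun p => Φ' p.1 * ψ p.2)) (x, y) =
        (Iio x).indicator (fun y => Φ' x * ψ y) y := fun y => by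
      simp [indicator]
    simp only [this]
    rw [integral_indicator measurableSet_Iio, Measure.restrict_restrict measurableSet_Iio,
      integral_const_mul, intervalIntegral.integral_of_le hx.1.le, integral_Ioc_eq_integral_Ioo,
      inter_comm, Ioo_inter_Iio, min_eq_right hx.2.le]
  have e2 : ∫ y in Ioo 0 L, ∫ x in Ioc 0 L,
      ({p : ℝ × ℝ | p.2 < p.1}.indicator (fun p => Φ' p.1 * ψ p.2)) (x, y) =
      ∫ y in Ioo 0 L, (Φ L * ψ y - Φ y * ψ y) := by
    refine setIntegral_congr_fun measurableSet_Ioo fun y hy => ?_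
    have : ∀ x, ({p : ℝ × ℝ | p.2 < p.1}.indicator (fun p => Φ' p.1 * ψ p.2)) (x, y) =
        (Ioi y).indicator (fun x => Φ' x * ψ y) x := fun x => by
      simp [indicator]
    simp only [this]
    rw [integral_indicator measurableSet_Ioi, Measure.restrict_restrict measurableSet_Ioi,
      integral_mul_const, inter_comm, Ioc_inter_Ioi, max_eq_right hy.1.le,
      ← intervalIntegral.integral_of_le hy.2.le,
      intervalIntegral.integral_eq_sub_of_hasDerivAt (fun x _ => hd x) (hc.intervalIntegrable _ _)]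
    ring
  have h2 : Integrable (fun y => Φ y * ψ y) (volume.restrict (Ioo 0 L)) :=
    IntegrableOn.continuousOn_mul_of_subset hΦ.continuousOn hψ isCompact_Icc measurableSet_Ioo
      Ioo_subset_Icc_self
  rw [e1, h1, e2, integral_sub (hψ.const_mul _) h2, integral_const_mul,
    intervalIntegral.integral_of_le hL, integral_Ioc_eq_integral_Ioo]

theorem rl {g : ℝ → ℂ} (hg : Integrable g (volume.restrict (Ioo 0 π))) :
    Tendsto (fun k : ℕ => ∫ x in Ioo 0 π, g x * conj ((sin (2 ^ k * x) : ℝ) : ℂ)) atTop (𝓝 0) := by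
  have h := Real.tendsto_integral_exp_smul_cocompact ((Ioo 0 π).indicator g)
  have h0 : Tendsto (fun k : ℕ => (2 : ℝ) ^ k / (2 * π)) atTop atTop :=
    (tendsto_pow_atTop_atTop_of_one_lt one_lt_two).atTop_div_const (by positivity)
  have h1 := h.comp (h0.mono_right atTop_le_cocompact)
  have h2 := h.comp ((tendsto_neg_atTop_atBot.comp h0).mono_right atBot_le_cocompact)
  have h3 := (h1.sub h2).mul_const (Complex.I / 2)
  rw [sub_zero, zero_mul] at h3
  refine h3.congr fun k => ?_
  have hi : ∀ w : ℝ, Integrable (fun v : ℝ => Real.fourierChar (-(v * w)) •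
      (Ioo 0 π).indicator g v) := fun w =>
    (Real.fourierIntegral_convergent_iff w).2 ((integrable_indicator_iff measurableSet_Ioo).2 hg)
      |>.congr (ae_of_all _ fun v => by simp [mul_comm])
  simp only [Function.comp]
  rw [← integral_sub (hi _) (hi _), ← integral_mul_const, ← integral_indicator measurableSet_Ioo]
  congr 1
  funext v
  by_cases hv : v ∈ Ioo 0 π
  · simp only [indicator_of_mem hv, Circle.smul_def, Real.fourierChar_apply, smul_eq_mul,
      Complex.conj_ofReal]
    rw [Complex.ofReal_sin, Complex.sin]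
    have e1 : ((2 * π * -(v * (2 ^ k / (2 * π))) : ℝ) : ℂ) = -((2 ^ k * v : ℝ) : ℂ) := by
      rw [← Complex.ofReal_neg]; congr 1; field_simp
    have e2 : ((2 * π * -(v * -(2 ^ k / (2 * π))) : ℝ) : ℂ) = ((2 ^ k * v : ℝ) : ℂ) := by
      congr 1; field_simp
    rw [e1, e2]
    ring
  · simp [indicator_of_notMem hv]

theorem time1 {M T : ℝ} {N : ℕ} (hM : M ≠ 0) (h : M * T = N * (2 * π)) (c d κ : ℂ) :
    ∫ s in (0 : ℝ)..T, ((M * cos (M * s) : ℝ) : ℂ) *
      (s * (c + κ * (cos (M * s) : ℝ)) - d) = κ * (M * T ^ 2 / 4 : ℝ) := by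
  have hd : ∀ s : ℝ, HasDerivAt (fun s : ℝ => c * ((s * sin (M * s) + cos (M * s) / M : ℝ) : ℂ) +
      κ * ((M * s ^ 2 / 4 + s * (sin (M * s) * cos (M * s)) / 2 + cos (M * s) ^ 2 / (4 * M) : ℝ) : ℂ)
      - d * ((sin (M * s) : ℝ) : ℂ))
      (((M * cos (M * s) : ℝ) : ℂ) * (s * (c + κ * (cos (M * s) : ℝ)) - d)) s := by
    intro s
    have h0 : HasDerivAt (fun s : ℝ => M * s) M s := by simpa using (hasDerivAt_id s).const_mul M
    have hs := h0.sin
    have hc := h0.cos
    have h1 : HasDerivAt (fun s : ℝ => s * sin (M * s) + cos (M * s) / M)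
        (M * cos (M * s) * s) s :=
      (((hasDerivAt_id s).mul hs).add (hc.div_const M)).congr_deriv (by
        simp only [id]; field_simp; ring)
    have h2 : HasDerivAt (fun s : ℝ => M * s ^ 2 / 4 + s * (sin (M * s) * cos (M * s)) / 2 +
        cos (M * s) ^ 2 / (4 * M)) (M * cos (M * s) * s * cos (M * s)) s :=
      ((((((hasDerivAt_id s).pow 2).const_mul M).div_const 4).add
        (((hasDerivAt_id s).mul (hs.mul hc)).div_const 2)).add
        ((hc.pow 2).div_const (4 * M))).congr_deriv (by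
          have := Real.sin_sq_add_cos_sq (M * s)
          simp only [id, Pi.mul_apply, Nat.cast_ofNat, Nat.add_one_sub_one, pow_one]
          field_simp
          linear_combination (-4 * M * s) * this)
    exact (((h1.ofReal_comp.const_mul c).add (h2.ofReal_comp.const_mul κ)).sub
      (hs.ofReal_comp.const_mul d)).congr_deriv (by push_cast; ring)
  rw [intervalIntegral.integral_eq_sub_of_hasDerivAt (fun s _ => hd s)
    (Continuous.intervalIntegrable (by fun_prop) _ _)]
  have e1 : sin (M * T) = 0 := by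
    have := Real.sin_nat_mul_pi (2 * N)
    rw [h, ← this]; congr 1; push_cast; ring
  have e2 : cos (M * T) = 1 := by rw [h, Real.cos_nat_mul_two_pi]
  simp only [e1, e2, mul_zero, Real.sin_zero, Real.cos_zero]
  push_cast
  ring

end Pool.Agent.H231Z.MR
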