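import Pool.Agent.H231Z.MR.Defs
import Pool.Agent.H231Z.MR.Ser
import Pool.Agent.H231Z.MR.Tools

set_option autoImplicit false

/-!
The counterexample.
-/

namespace Pool.Agent.H231Z.MR

open MeasureTheory Set Real Filter Topology
open scoped ComplexConjugate

theorem ncos_le (y : ℝ) : |-cos y| ≤ 1 := by rw [abs_neg]; exact abs_cos_le_one y
theorem nsin_le (y : ℝ) : |-sin y| ≤ 1 := by rw [abs_neg]; exact abs_sin_le_one y

noncomputable def PP (t x : ℝ) : ℝ := ser (1 / 8) (fun y => -cos y) cos t x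
noncomputable def WW (t x : ℝ) : ℝ := ser (1 / 4) sin cos t x
noncomputable def GG (t x : ℝ) : ℝ := ser (1 / 2) cos cos t x
noncomputable def FF (t x : ℝ) : ℝ := ser (1 / 2) (fun y => -cos y) (fun y => -sin y) t x

theorem PP_cont : Continuous fun p : ℝ × ℝ => PP p.1 p.2 :=
  ser_cont (by norm_num) (by norm_num) ncos_le abs_cos_le_one (by fun_prop) (by fun_prop)
theorem WW_cont : Continuous fun p : ℝ × ℝ => WW p.1 p.2 :=
  ser_cont (by norm_num) (by norm_num) abs_sin_le_one abs_cos_le_one (by fun_prop) (by fun_prop)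
theorem GG_cont : Continuous fun p : ℝ × ℝ => GG p.1 p.2 :=
  ser_cont (by norm_num) (by norm_num) abs_cos_le_one abs_cos_le_one (by fun_prop) (by fun_prop)
theorem FF_cont : Continuous fun p : ℝ × ℝ => FF p.1 p.2 :=
  ser_cont (by norm_num) (by norm_num) ncos_le nsin_le (by fun_prop) (by fun_prop)

@[fun_prop] theorem PP_c {X : Type} [TopologicalSpace X] {a b : X → ℝ} (ha : Continuous a)
    (hb : Continuous b) : Continuous fun p => PP (a p) (b p) :=
  Continuous.comp (g := fun p : ℝ × ℝ => PP p.1 p.2) (f := fun p => (a p, b p)) PP_cont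
    (ha.prodMk hb)
@[fun_prop] theorem WW_c {X : Type} [TopologicalSpace X] {a b : X → ℝ} (ha : Continuous a)
    (hb : Continuous b) : Continuous fun p => WW (a p) (b p) :=
  Continuous.comp (g := fun p : ℝ × ℝ => WW p.1 p.2) (f := fun p => (a p, b p)) WW_cont
    (ha.prodMk hb)
@[fun_prop] theorem GG_c {X : Type} [TopologicalSpace X] {a b : X → ℝ} (ha : Continuous a)
    (hb : Continuous b) : Continuous fun p => GG (a p) (b p) :=
  Continuous.comp (g := fun p : ℝ × ℝ => GG p.1 p.2) (f := fun p => (a p, b p)) GG_cont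
    (ha.prodMk hb)
@[fun_prop] theorem FF_c {X : Type} [TopologicalSpace X] {a b : X → ℝ} (ha : Continuous a)
    (hb : Continuous b) : Continuous fun p => FF (a p) (b p) :=
  Continuous.comp (g := fun p : ℝ × ℝ => FF p.1 p.2) (f := fun p => (a p, b p)) FF_cont
    (ha.prodMk hb)

theorem PP_dx (t x : ℝ) : HasDerivAt (fun x => PP t x) (WW t x) x := by
  have := ser_dx (r := 1 / 8) (α' := sin) (by norm_num) (by norm_num) ncos_le abs_cos_le_one
    abs_sin_le_one (fun y => (hasDerivAt_cos y).neg.congr_deriv (neg_neg _)) t x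
  rwa [show (2 : ℝ) * (1 / 8) = 1 / 4 by norm_num] at this

theorem PP_dt (t x : ℝ) : HasDerivAt (fun t => PP t x) (FF t x) t := by
  have := ser_dt (r := 1 / 8) (by norm_num) (by norm_num) ncos_le abs_cos_le_one
    nsin_le hasDerivAt_cos t x
  rwa [show (4 : ℝ) * (1 / 8) = 1 / 2 by norm_num] at this

theorem WW_dx (t x : ℝ) : HasDerivAt (fun x => WW t x) (GG t x) x := by
  have := ser_dx (r := 1 / 4) (by norm_num) (by norm_num) abs_sin_le_one abs_cos_le_one
    abs_cos_le_one hasDerivAt_sin t x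
  rwa [show (2 : ℝ) * (1 / 4) = 1 / 2 by norm_num] at this

theorem WW_zero (t : ℝ) : WW t 0 = 0 := by simp [WW, ser]

theorem WW_pi (t : ℝ) : WW t π = 0 := by
  have : ∀ j : ℕ, sin (2 ^ j * π) = 0 := fun j => by
    simpa using Real.sin_nat_mul_pi (2 ^ j)
  simp [WW, ser, this]

/-- the unperturbed profile and its derivatives -/
noncomputable def E (x : ℝ) : ℂ := Complex.exp (2 * Complex.I * x)

@[fun_prop] theorem E_c {X : Type} [TopologicalSpace X] {a : X → ℝ} (ha : Continuous a) :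
    Continuous fun p => E (a p) := by unfold E; fun_prop

theorem E_d (x : ℝ) : HasDerivAt E (2 * Complex.I * E x) x := by
  have := ((Complex.ofRealCLM.hasDerivAt (x := x)).const_mul (2 * Complex.I)).cexp
  exact this.congr_deriv (by simp [E]; ring)

theorem E_norm (x : ℝ) : ‖2 * Complex.I * E x‖ = 2 := by
  have : 2 * Complex.I * (x : ℂ) = ((2 * x : ℝ) : ℂ) * Complex.I := by push_cast; ring
  rw [norm_mul, norm_mul, E, this, Complex.norm_exp_ofReal_mul_I]; simp

theorem E_zero : E 0 = 1 := by simp [E]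

theorem E_pi : E π = 1 := by
  rw [E, ← Complex.exp_two_pi_mul_I]; congr 1; ring

theorem cont_L2 (T : ℝ) {u : ℝ → ℝ → ℂ} (hu : Continuous fun p : ℝ × ℝ => u p.1 p.2) :
    InL2 T u := by
  obtain ⟨C, hC⟩ := ((isCompact_Icc (a := (0 : ℝ)) (b := T)).prod
    (isCompact_Icc (a := (0 : ℝ)) (b := π))).exists_bound_of_continuousOn hu.continuousOn
  have : IsFiniteMeasure ((volume : Measure (ℝ × ℝ)).restrict (Ioo 0 T ×ˢ Ioo 0 π)) := by
    rw [Measure.volume_eq_prod, ← Measure.prod_restrict]; infer_instance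
  refine MemLp.of_bound hu.aestronglyMeasurable C ?_
  filter_upwards [ae_restrict_mem (measurableSet_Ioo.prod measurableSet_Ioo)] with p hp
  exact hC p ⟨Ioo_subset_Icc_self hp.1, Ioo_subset_Icc_self hp.2⟩

theorem isV_of {v g : ℝ → ℂ} (hd : ∀ x, HasDerivAt v (g x) x) (hg : Continuous g) (h0 : v 0 = 0)
    (h1 : v π = 0) : IsV v g := by
  refine ⟨?_, fun x _ => ?_, h1⟩
  · obtain ⟨C, hC⟩ := (isCompact_Icc (a := (0 : ℝ)) (b := π)).exists_bound_of_continuousOn
      hg.continuousOn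
    refine MemLp.of_bound hg.aestronglyMeasurable C ?_
    filter_upwards [ae_restrict_mem measurableSet_Ioo] with p hp
    exact hC p (Ioo_subset_Icc_self hp)
  · rw [intervalIntegral.integral_eq_sub_of_hasDerivAt (fun x _ => hd x) (hg.intervalIntegrable _ _),
      h0, sub_zero]

theorem IsV.int {φ ψ : ℝ → ℂ} (h : IsV φ ψ) :
    Integrable (fun x => conj (ψ x)) (volume.restrict (Ioo 0 π)) :=
  Complex.conjCLE.toContinuousLinearMap.integrable_comp (h.1.integrable one_le_two)

theorem IsV.conj_eq {φ ψ : ℝ → ℂ} (h : IsV φ ψ) {x : ℝ} (hx : x ∈ Icc 0 π) :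
    conj (φ x) = ∫ y in (0 : ℝ)..x, conj (ψ y) := by
  rw [h.2.1 x hx, intervalIntegral.integral_of_le hx.1, intervalIntegral.integral_of_le hx.1,
    integral_conj]

theorem IsV.ibp {φ ψ : ℝ → ℂ} (h : IsV φ ψ) {Φ Φ' : ℝ → ℂ} (hd : ∀ x, HasDerivAt Φ (Φ' x) x)
    (hc : Continuous Φ') : ip Φ' φ = -ip Φ ψ := by
  have h1 := MR.ibp pi_pos.le hd hc h.int
  rw [← h.conj_eq ⟨pi_pos.le, le_rfl⟩, h.2.2, map_zero, mul_zero, zero_sub] at h1
  rw [ip, ip, ← h1]
  exact setIntegral_congr_fun measurableSet_Ioo fun x hx => by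
    simp only [h.conj_eq (Ioo_subset_Icc_self hx)]

theorem IsV.ip_sub {φ ψ : ℝ → ℂ} (h : IsV φ ψ) {a b : ℝ → ℂ} (ha : Continuous a)
    (hb : Continuous b) : ip a ψ - ip b ψ = ip (fun x => a x - b x) ψ := by
  rw [ip, ip, ip, ← integral_sub
    (IntegrableOn.continuousOn_mul_of_subset ha.continuousOn h.int isCompact_Icc measurableSet_Ioo
      Ioo_subset_Icc_self)
    (IntegrableOn.continuousOn_mul_of_subset hb.continuousOn h.int isCompact_Icc measurableSet_Ioo
      Ioo_subset_Icc_self)]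
  simp only [sub_mul]

section data

variable (ω ε : ℝ)

noncomputable def num (t x : ℝ) : ℂ := 2 * Complex.I * E x + (ε * ω * FF (ω * t) x : ℝ)
noncomputable def den (t x : ℝ) : ℂ := 2 * Complex.I * E x + (ε * GG (ω * t) x : ℝ)
noncomputable def AA (t x : ℝ) : ℂ := num ω ε t x / den ω ε t x
noncomputable def uu (t x : ℝ) : ℂ := E x - 1 + (ε * WW (ω * t) x : ℝ)
noncomputable def QQ (t x : ℝ) : ℂ := E x / (2 * Complex.I) - x + (ε * PP (ω * t) x : ℝ)

theorem uu_d (t x : ℝ) : HasDerivAt (uu ω ε t) (den ω ε t x) x :=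
  ((E_d x).sub_const 1).add ((WW_dx (ω * t) x).const_mul ε).ofReal_comp

theorem QQ_d (t x : ℝ) : HasDerivAt (QQ ω ε t) (uu ω ε t x) x :=
  ((((E_d x).div_const (2 * Complex.I)).sub (Complex.ofRealCLM.hasDerivAt (x := x))).add
    ((PP_dx (ω * t) x).const_mul ε).ofReal_comp).congr_deriv (by
      simp only [uu, Complex.ofRealCLM_apply, Complex.ofReal_one]
      field_simp)

theorem QQ_dt (t x : ℝ) :
    HasDerivAt (fun t => QQ ω ε t x) ((ε * ω * FF (ω * t) x : ℝ) : ℂ) t := by
  have h0 : HasDerivAt (fun t : ℝ => ω * t) ω t := by simpa using (hasDerivAt_id t).const_mul ω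
  have h1 : HasDerivAt (fun t => ε * PP (ω * t) x) (ε * ω * FF (ω * t) x) t :=
    (((PP_dt (ω * t) x).comp t h0).const_mul ε).congr_deriv (by ring)
  exact h1.ofReal_comp.const_add _

variable {ω ε}

theorem pert (hω : 0 < ω) (hε : 0 < ε) (h1 : ε * (ω + 1) ≤ 1 / 4) (t x : ℝ) :
    |ε * ω * FF (ω * t) x| ≤ 1 / 2 ∧ |ε * GG (ω * t) x| ≤ 1 / 2 := by
  have a1 : |FF (ω * t) x| ≤ 2 := ser_le ncos_le nsin_le _ _
  have a2 : |GG (ω * t) x| ≤ 2 := ser_le abs_cos_le_one abs_cos_le_one _ _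
  rw [abs_mul, abs_mul ε (GG _ _), abs_of_pos (mul_pos hε hω), abs_of_pos hε]
  constructor <;> nlinarith [mul_pos hε hω]

theorem den_ge (hω : 0 < ω) (hε : 0 < ε) (h1 : ε * (ω + 1) ≤ 1 / 4) (t x : ℝ) :
    3 / 2 ≤ ‖den ω ε t x‖ := by
  have h2 := norm_sub_le (den ω ε t x) ((ε * GG (ω * t) x : ℝ) : ℂ)
  rw [den, add_sub_cancel_right, E_norm, Complex.norm_real, Real.norm_eq_abs] at h2
  rw [den]
  linarith [(pert hω hε h1 t x).2]

theorem AA_near (hω : 0 < ω) (hε : 0 < ε) (h1 : ε * (ω + 1) ≤ 1 / 4) (t x : ℝ) :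
    ‖AA ω ε t x - 1‖ ≤ 2 / 3 := by
  have h2 := den_ge hω hε h1 t x
  have h3 : den ω ε t x ≠ 0 := norm_pos_iff.1 (by linarith)
  rw [AA, div_sub_one h3, norm_div, div_le_iff₀ (by linarith), num, den, add_sub_add_left_eq_sub]
  refine (norm_sub_le _ _).trans ?_
  rw [Complex.norm_real, Complex.norm_real, Real.norm_eq_abs, Real.norm_eq_abs, ← den]
  linarith [(pert hω hε h1 t x).1, (pert hω hε h1 t x).2]

theorem AA_holder (hω : 0 < ω) (hε : 0 < ε) (h1 : ε * (ω + 1) ≤ 1 / 4) (t s x : ℝ) :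
    ‖AA ω ε t x - AA ω ε s x‖ ≤ 10 * √ω * √|t - s| := by
  have d1 := den_ge hω hε h1 t x
  have d2 := den_ge hω hε h1 s x
  have h3 : den ω ε t x ≠ 0 := norm_pos_iff.1 (by linarith)
  have h4 : den ω ε s x ≠ 0 := norm_pos_iff.1 (by linarith)
  have e0 : √|ω * t - ω * s| = √ω * √|t - s| := by
    rw [← mul_sub, abs_mul, abs_of_pos hω, Real.sqrt_mul hω.le]
  have a1 : |FF (ω * t) x - FF (ω * s) x| ≤ 10 * (√ω * √|t - s|) := e0 ▸
    ser_holder ncos_le nsin_le (fun a b => by
      rw [neg_sub_neg, abs_sub_comm]; exact Real.abs_sin_sub_sin_le a b) _ _ _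
  have a2 : |GG (ω * t) x - GG (ω * s) x| ≤ 10 * (√ω * √|t - s|) := e0 ▸
    ser_holder abs_cos_le_one abs_cos_le_one Real.abs_cos_sub_cos_le _ _ _
  have hq : 0 ≤ √ω * √|t - s| := by positivity
  rw [mul_assoc]
  generalize √ω * √|t - s| = q at a1 a2 hq
  have n1 : ‖num ω ε t x - num ω ε s x‖ ≤ ε * ω * (10 * q) := by
    rw [num, num, add_sub_add_left_eq_sub, ← Complex.ofReal_sub, Complex.norm_real, ← mul_sub,
      Real.norm_eq_abs, abs_mul, abs_of_pos (mul_pos hε hω)]
    gcongr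
  have n2 : ‖den ω ε t x - den ω ε s x‖ ≤ ε * (10 * q) := by
    rw [den, den, add_sub_add_left_eq_sub, ← Complex.ofReal_sub, Complex.norm_real, ← mul_sub,
      Real.norm_eq_abs, abs_mul, abs_of_pos hε]
    gcongr
  have n3 : ‖AA ω ε s x‖ ≤ 2 := by
    have := norm_add_le (AA ω ε s x - 1) 1
    rw [sub_add_cancel, norm_one] at this
    linarith [AA_near hω hε h1 s x]
  have e : AA ω ε t x - AA ω ε s x = ((num ω ε t x - num ω ε s x) -
      AA ω ε s x * (den ω ε t x - den ω ε s x)) / den ω ε t x := by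
    unfold AA; field_simp; ring
  rw [e, norm_div, div_le_iff₀ (by linarith)]
  refine (norm_sub_le _ _).trans ?_
  rw [norm_mul]
  have n4 := mul_le_mul n3 n2 (norm_nonneg _) (by norm_num)
  nlinarith [mul_pos hε hω, mul_le_mul_of_nonneg_right h1 hq, mul_le_mul_of_nonneg_left d1 hq]

theorem sol (hω : 0 < ω) (hε : 0 < ε) (h1 : ε * (ω + 1) ≤ 1 / 4) (T : ℝ) :
    IsSol T (AA ω ε) (fun t x => uu ω ε t x + t * (4 * E x)) (fun t x => t * uu ω ε t x)
      (fun t x => t * den ω ε t x) := by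
  refine ⟨cont_L2 T (by unfold uu; fun_prop), cont_L2 T (by unfold den; fun_prop),
    fun t _ => isV_of (fun x => (uu_d ω ε t x).const_mul _) (by unfold den; fun_prop)
      (by simp [uu, E_zero, WW_zero]) (by simp [uu, E_pi, WW_pi]), fun φ ψ h t ht => ?_⟩
  have e1 : ip (fun x => t * uu ω ε t x) φ = -ip (fun x => t * QQ ω ε t x) ψ :=
    h.ibp (fun x => (QQ_d ω ε t x).const_mul _) (by unfold uu; fun_prop)
  have e2 : ∀ s : ℝ, ip (fun x => uu ω ε s x + s * (4 * E x)) φ -
      ip (fun x => AA ω ε s x * (s * den ω ε s x)) ψ =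
      ∫ x in Ioo 0 π, (-(QQ ω ε s x + s * (ε * ω * FF (ω * s) x : ℝ))) * conj (ψ x) := by
    intro s
    have a1 : ip (fun x => uu ω ε s x + s * (4 * E x)) φ =
        -ip (fun x => QQ ω ε s x - s * (2 * Complex.I * E x)) ψ :=
      h.ibp (fun x => ((QQ_d ω ε s x).sub
        (((E_d x).const_mul (2 * Complex.I)).const_mul (s : ℂ))).congr_deriv (by
          linear_combination (-4 * s * E x) * Complex.I_mul_I)) (by unfold uu; fun_prop)
    have a2 : (fun x => AA ω ε s x * (s * den ω ε s x)) = fun x => s * num ω ε s x := by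
      funext x
      have : den ω ε s x ≠ 0 := norm_pos_iff.1 (by linarith [den_ge hω hε h1 s x])
      unfold AA; field_simp
    have a3 : -ip (fun x => QQ ω ε s x - s * (2 * Complex.I * E x)) ψ =
        ip (fun x => -(QQ ω ε s x - s * (2 * Complex.I * E x))) ψ := by
      simp only [ip, neg_mul, integral_neg]
    rw [a1, a2, a3, h.ip_sub (by unfold QQ; fun_prop) (by unfold num; fun_prop), ip]
    congr 1
    funext x
    unfold num
    ring
  simp only [e2]
  rw [e1, swap ht.1 (fun p => -(QQ ω ε p.1 p.2 + p.1 * (ε * ω * FF (ω * p.1) p.2 : ℝ)))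
    (by unfold QQ; fun_prop) h.int, ip, ← integral_neg]
  congr 1
  funext x
  rw [intervalIntegral.integral_eq_sub_of_hasDerivAt (f := fun s : ℝ => -(s * QQ ω ε s x))
    (fun s _ => (((Complex.ofRealCLM.hasDerivAt (x := s)).mul (QQ_dt ω ε s x)).neg).congr_deriv
      (by simp)) (Continuous.intervalIntegrable (by unfold QQ; fun_prop) _ _)]
  simp

theorem not_H1 {T : ℝ} (hT : 0 < T) (hε : 0 < ε) :
    ¬ InH1 T (fun t x => t * uu (π / T) ε t x) := by
  rintro ⟨u₀, g, -, hg, h⟩
  set ω := π / T with hω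
  have hω0 : 0 < ω := by positivity
  have hT' : (volume : Measure ℝ).restrict (Ioo 0 T) = volume.restrict (Ioc 0 T) :=
    Measure.restrict_congr_set Ioo_ae_eq_Ioc
  have hg1 : Integrable (fun p : ℝ × ℝ => g p.1 p.2)
      ((volume.restrict (Ioc 0 T)).prod (volume.restrict (Ioo 0 π))) := by
    rw [← hT']
    unfold InL2 at hg
    rw [Measure.volume_eq_prod, ← Measure.prod_restrict] at hg
    exact hg.integrable one_le_two
  let φ : ℕ → ℝ → ℂ := fun k x => (sin (2 ^ k * x) : ℝ)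
  have hφ : ∀ k, IsV (φ k) (fun x => (cos (2 ^ k * x) * 2 ^ k : ℝ)) := fun k =>
    isV_of (fun x => by
      have h0 : HasDerivAt (fun x : ℝ => 2 ^ k * x) (2 ^ k) x := by
        simpa using (hasDerivAt_id x).const_mul ((2 : ℝ) ^ k)
      exact h0.sin.ofReal_comp) (by fun_prop) (by simp [φ]) (by
        have : sin (2 ^ k * π) = 0 := by simpa using Real.sin_nat_mul_pi (2 ^ k)
        simp only [φ, this, Complex.ofReal_zero])
  have hgk : ∀ k, Integrable (fun s => ip (g s) (φ k)) (volume.restrict (Ioo 0 T)) := by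
    intro k
    rw [hT']
    have := (prod_int (fun p => conj (φ k p.2)) (by simp only [φ]; fun_prop) hg1).integral_prod_left
    simpa only [ip, mul_comm] using this
  have hlim : Tendsto (fun k : ℕ => ∫ s in Ioo 0 T, ((sin (4 ^ k * ω * s) : ℝ) : ℂ) *
      ip (g s) (φ k)) atTop (𝓝 0) := by
    have := tendsto_integral_of_dominated_convergence (μ := volume.restrict (Ioo 0 T))
      (F := fun (k : ℕ) (s : ℝ) => ((sin (4 ^ k * ω * s) : ℝ) : ℂ) * ip (g s) (φ k))
      (f := fun _ => 0) (fun s => ∫ x in Ioo 0 π, ‖g s x‖)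
      (fun k => (Continuous.aestronglyMeasurable (by fun_prop)).mul (hgk k).1)
      (by rw [hT']; exact hg1.integral_norm_prod_left)
      (fun k => by
        rw [hT']
        filter_upwards [hg1.prod_right_ae] with s hs
        rw [norm_mul, Complex.norm_real]
        refine (mul_le_of_le_one_left (norm_nonneg _) (abs_sin_le_one _)).trans ?_
        refine norm_integral_le_of_norm_le hs.norm (ae_of_all _ fun x => ?_)
        rw [norm_mul, Complex.norm_conj, Complex.norm_real]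
        exact mul_le_of_le_one_right (norm_nonneg _) (abs_sin_le_one _))
      (by
        rw [hT']
        filter_upwards [hg1.prod_right_ae] with s hs
        refine squeeze_zero_norm (fun k => ?_) (tendsto_zero_iff_norm_tendsto_zero.1 (rl hs))
        rw [norm_mul, Complex.norm_real]
        exact mul_le_of_le_one_left (norm_nonneg _) (abs_sin_le_one _))
    simpa using this
  have hval : ∀ k : ℕ, ∫ s in Ioo 0 T, ((sin (4 ^ (k + 1) * ω * s) : ℝ) : ℂ) *
      ip (g s) (φ (k + 1)) = -((ε * (π / 2) * ω * T ^ 2 / 4 : ℝ) : ℂ) := by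
    intro k
    set M : ℝ := 4 ^ (k + 1) * ω with hM
    have hMT : M * T = ((2 * 4 ^ k : ℕ) : ℝ) * (2 * π) := by
      rw [hM, hω]; push_cast; field_simp; ring
    have h0 : ∀ s, HasDerivAt (fun s : ℝ => M * s) M s := fun s => by
      simpa using (hasDerivAt_id s).const_mul M
    have h1 := ibp hT.le (Φ := fun s => ((sin (M * s) : ℝ) : ℂ))
      (Φ' := fun s => ((M * cos (M * s) : ℝ) : ℂ))
      (fun s => ((h0 s).sin.congr_deriv (mul_comm _ _)).ofReal_comp) (by fun_prop) (hgk (k + 1))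
    have e1 : sin (M * T) = 0 := by
      have := Real.sin_nat_mul_pi (2 * (2 * 4 ^ k))
      rw [hMT, ← this]; congr 1; push_cast; ring
    simp only [e1, Complex.ofReal_zero, zero_mul, zero_sub] at h1
    have h2 := time1 (by positivity) hMT (ip (fun x => E x - 1) (φ (k + 1))) (ip u₀ (φ (k + 1)))
      ((ε * (π / 2) * (1 / 4) ^ (k + 1) : ℝ) : ℂ)
    rw [intervalIntegral.integral_of_le hT.le, integral_Ioc_eq_integral_Ioo] at h2
    rw [← neg_eq_iff_eq_neg, ← h1]
    refine Eq.trans (integral_congr_ae ?_) (h2.trans ?_)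
    · filter_upwards [h _ _ (hφ (k + 1))] with s hs
      rw [← sub_eq_iff_eq_add'] at hs
      rw [← hs]
      congr 2
      have h3 := ser_coeff (r := 1 / 4) (by norm_num) (by norm_num) abs_cos_le_one (ω * s) (k + 1)
      rw [intervalIntegral.integral_of_le pi_pos.le, integral_Ioc_eq_integral_Ioo] at h3
      have h4 : ∀ x, s * uu ω ε s x * conj (φ (k + 1) x) = s * ((E x - 1) * conj (φ (k + 1) x) +
          ((ε * (WW (ω * s) x * sin (2 ^ (k + 1) * x)) : ℝ) : ℂ)) := fun x => by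
        simp only [φ, uu, Complex.conj_ofReal]; push_cast; ring
      have i1 : ∀ {a : ℝ → ℂ}, Continuous a → Integrable a (volume.restrict (Ioo 0 π)) :=
        fun ha => (ha.integrableOn_Icc).mono_set Ioo_subset_Icc_self
      simp only [ip, h4]
      rw [integral_const_mul, integral_add (i1 (by simp only [φ]; fun_prop)) (i1 (by fun_prop)),
        integral_complex_ofReal, integral_const_mul]
      unfold WW
      rw [h3, hM, mul_assoc (4 ^ (k + 1) : ℝ)]
      push_cast
      ring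
    · rw [← Complex.ofReal_mul, hM]
      congr 1
      rw [one_div, inv_pow]
      field_simp
  have h5 := (tendsto_add_atTop_iff_nat 1).2 hlim
  simp only [hval, tendsto_const_nhds_iff, neg_eq_zero, Complex.ofReal_eq_zero] at h5
  exact absurd h5 (by positivity)

end data

theorem main (T : ℝ) (hT : 0 < T) : ∃ (A : ℝ → ℝ → ℂ) (C : ℝ),
    Continuous (fun p : ℝ × ℝ => A p.1 p.2) ∧ (∀ t x, 1 / 3 ≤ (A t x).re ∧ ‖A t x‖ ≤ 2) ∧
    (∀ t s x, ‖A t x - A s x‖ ≤ C * √|t - s|) ∧
    ∃ f u D : ℝ → ℝ → ℂ, InL2 T f ∧ IsSol T A f u D ∧ ¬ InH1 T u := by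
  have hω : 0 < π / T := by positivity
  have hε : 0 < 1 / (4 * (π / T + 1)) := by positivity
  have h1 : 1 / (4 * (π / T + 1)) * (π / T + 1) ≤ 1 / 4 := le_of_eq (by field_simp)
  refine ⟨AA (π / T) (1 / (4 * (π / T + 1))), 10 * √(π / T), ?_, fun t x => ?_,
    AA_holder hω hε h1, _, _, _, cont_L2 T (by unfold uu; fun_prop), sol hω hε h1 T, not_H1 hT hε⟩
  · refine Continuous.div (by unfold num; fun_prop) (by unfold den; fun_prop) fun p => ?_
    exact norm_pos_iff.1 (by linarith [den_ge hω hε h1 p.1 p.2])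
  · have h2 := AA_near hω hε h1 t x
    constructor
    · have := (abs_le.1 ((Complex.abs_re_le_norm _).trans h2)).1
      rw [Complex.sub_re, Complex.one_re] at this
      linarith
    · have := norm_add_le (AA (π / T) (1 / (4 * (π / T + 1))) t x - 1) 1
      rw [sub_add_cancel, norm_one] at this
      linarith

theorem op_bound {a b g ψ : ℝ → ℂ} {K : ℝ} (ha : Continuous a) (hb : Continuous b)
    (hab : ∀ x, ‖a x - b x‖ ≤ K) (hg : MemLp g 2 (volume.restrict (Ioo 0 π)))
    (hψ : MemLp ψ 2 (volume.restrict (Ioo 0 π))) :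
    ‖ip (fun x => a x * g x) ψ - ip (fun x => b x * g x) ψ‖ ≤
      K * (√(∫ x in Ioo 0 π, ‖g x‖ ^ 2) * √(∫ x in Ioo 0 π, ‖ψ x‖ ^ 2)) := by
  have hK : 0 ≤ K := (norm_nonneg _).trans (hab 0)
  have hψ' : MemLp (fun x => conj (ψ x)) 2 (volume.restrict (Ioo 0 π)) :=
    Complex.conjCLE.toContinuousLinearMap.comp_memLp' hψ
  have hi : Integrable (fun x => g x * conj (ψ x)) (volume.restrict (Ioo 0 π)) :=
    hg.integrable_mul hψ'
  have i1 : ∀ {c : ℝ → ℂ}, Continuous c →
      Integrable (fun x => c x * (g x * conj (ψ x))) (volume.restrict (Ioo 0 π)) := fun hc =>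
    IntegrableOn.continuousOn_mul_of_subset hc.continuousOn hi isCompact_Icc measurableSet_Ioo
      Ioo_subset_Icc_self
  have h2 := integral_mul_norm_le_Lp_mul_Lq (μ := volume.restrict (Ioo 0 π)) (f := g) (g := ψ)
    Real.HolderConjugate.two_two (by simpa using hg) (by simpa using hψ)
  simp only [Real.rpow_two, ← Real.sqrt_eq_rpow] at h2
  simp only [ip, mul_assoc]
  rw [← integral_sub (i1 ha) (i1 hb)]
  refine le_trans (norm_integral_le_of_norm_le (hi.norm.const_mul K) (ae_of_all _ fun x => ?_)) ?_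
  · rw [← sub_mul, norm_mul]
    exact mul_le_mul_of_nonneg_right (hab x) (norm_nonneg _)
  · rw [integral_const_mul]
    refine mul_le_mul_of_nonneg_left (le_trans (le_of_eq ?_) h2) hK
    simp only [norm_mul, Complex.norm_conj]

end Pool.Agent.H231Z.MR
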